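import Mathlib
import Pool.Agent.U514.TG.Stm

/-!
Project TG (helper514), package LOCY (helper358): the values go on to the east.
-/

set_option autoImplicit false

namespace Pool.Agent.U358.TG

open Finset
open Pool.Agent.U514.TG

theorem t_LOCY : S_LOCY := by
  intro F V _ p hp τ I J c j ρ hc hρ
  have ht := hp.t_pos τ
  obtain ⟨t, hteq⟩ : ∃ t, t = p.t τ := ⟨_, rfl⟩
  unfold Par.stile Par.sx Par.sy Tile.outY
  simp only [Par.FL, Par.FR]
  rw [← hteq] at hc hρ ht ⊢
  obtain ⟨s, hs⟩ : ∃ s, s = t ^ 2 := ⟨_, rfl⟩
  rw [← hs] at hc ⊢
  by_cases h1 : c < s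
  · simp only [if_pos h1]
    by_cases h2 : ρ < t
    · simp only [if_pos h2, map_one, map_zero, one_mul, zero_mul, add_zero]
      by_cases h3 : c + 1 < s
      · rw [if_pos h3]
        unfold Par.SL
        rw [sum_range_succ]
      · rw [if_neg h3]
        have h4 : s = c + 1 := by omega
        rw [h4]
        unfold Par.SL
        rw [sum_range_succ]
    · simp only [if_neg h2]
      by_cases h3 : (ρ - t) % 2 = 0
      · simp only [if_pos h3, map_one, map_zero, one_mul, zero_mul, add_zero]
        by_cases h4 : c + 1 < s
        · rw [if_pos h4]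
          unfold Par.SR
          rw [sum_range_succ]
        · rw [if_neg h4]
          have h5 : s = c + 1 := by omega
          rw [h5]
          unfold Par.SR
          rw [sum_range_succ]
      · simp only [if_neg h3, map_zero, zero_mul, add_zero]
        rw [if_neg]
        rintro ⟨h4, h5, _⟩
        omega
  · simp only [if_neg h1]
    have h1' : ¬ c + 1 < s := by omega
    simp only [if_neg h1']
    by_cases h0 : (c - s) % 2 = 0
    · simp only [if_pos h0]
      have e0 : (c + 1 - s) / 2 = (c - s) / 2 := by omega
      have e1 : (c + 1 - s) % 2 = 1 := by omega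
      have e2 : ¬ (c - s) % 2 = 1 := by omega
      by_cases h2 : ρ < t
      · simp only [if_pos h2]
        by_cases h3 : ρ = (c - s) / 2 % t
        · simp only [if_pos h3, map_one, map_zero, one_mul, zero_mul, add_zero]
        · simp only [if_neg h3, map_one, map_zero, one_mul, zero_mul, add_zero]
      · simp only [if_neg h2]
        by_cases h3 : (ρ - t) % 2 = 0
        · simp only [if_pos h3]
          by_cases h4 : (ρ - t) / 2 = (c - s) / 2 / t
          · simp only [if_pos h4, map_one, map_zero, one_mul, zero_mul, add_zero]
          · simp only [if_neg h4, map_one, map_zero, one_mul, zero_mul, add_zero]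
        · simp only [if_neg h3]
          by_cases h4 : (ρ - t) / 2 = (c - s) / 2 / t
          · have hlt : (c - s) / 2 % t < t := Nat.mod_lt _ ht
            have h5 : ¬ ρ ≤ (c - s) / 2 % t := by omega
            have h6 : ¬ ρ ≤ t + 2 * ((c - s) / 2 / t) := by omega
            simp only [if_pos h4, if_neg h5, if_neg h6, map_one, map_zero, one_mul, zero_mul,
              add_zero, zero_add]
            rw [if_pos ⟨by omega, e1, by rw [e0, h4]⟩, e0, h4]
          · simp only [if_neg h4, map_zero, zero_mul, add_zero]
            rw [if_neg]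
            rintro ⟨_, _, h5⟩
            rw [e0] at h5
            exact h4 h5.symm
    · simp only [if_neg h0]
      have e1 : ¬ (c + 1 - s) % 2 = 1 := by omega
      by_cases h2 : ρ < t
      · simp only [if_pos h2, if_pos (Or.inl h2 : ρ < t ∨ (ρ - t) % 2 = 0), map_one, map_zero,
          one_mul, zero_mul, add_zero]
      · simp only [if_neg h2]
        by_cases h3 : (ρ - t) % 2 = 0
        · simp only [if_pos h3, if_pos (Or.inr h3 : ρ < t ∨ (ρ - t) % 2 = 0), map_one, map_zero,
            one_mul, zero_mul, add_zero]
        · have h4 : ¬ (ρ < t ∨ (ρ - t) % 2 = 0) := by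
            rintro (h | h)
            · exact h2 h
            · exact h3 h
          simp only [if_neg h3, if_neg h4]
          rw [if_neg (c := s ≤ c + 1 ∧ (c + 1 - s) % 2 = 1 ∧ (c + 1 - s) / 2 / t = (ρ - t) / 2)
            (fun h => e1 h.2.1)]
          by_cases h5 : (ρ - t) / 2 = (c - s) / 2 / t
          · simp only [if_pos h5, map_zero, zero_mul, add_zero]
          · simp only [if_neg h5, map_zero, zero_mul, add_zero]

end Pool.Agent.U358.TG
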